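import Mathlib

namespace Pool.Agent.Results.MP_39cb5d_an.AffineNotUnique

open Filter Topology

noncomputable section

/-- one step of the self-similar recursion with weights `p/2, p/2, (1-p)/2, (1-p)/2` -/
def step (p : ℝ) (F : ℝ → ℝ) (s : ℝ) : ℝ :=
  p / 2 * F (4 * s) + p / 2 * F (4 * s - 1) + (1 - p) / 2 * F (4 * s - 2)
    + (1 - p) / 2 * F (4 * s - 3)

/-- iterates of the recursion, starting with the indicator function of `(0, ∞)` -/
def Fn (p : ℝ) : ℕ → ℝ → ℝ
  | 0 => fun s => if s ≤ 0 then 0 else 1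
  | n + 1 => step p (Fn p n)

section
variable {p : ℝ} (h0 : 0 < p) (h1 : p < 1)
include h0 h1

lemma step_le_step {F G : ℝ → ℝ} (h : ∀ s, F s ≤ G s) (s : ℝ) : step p F s ≤ step p G s := by
  unfold step
  have e1 := mul_le_mul_of_nonneg_left (h (4 * s)) (by linarith : 0 ≤ p / 2)
  have e2 := mul_le_mul_of_nonneg_left (h (4 * s - 1)) (by linarith : 0 ≤ p / 2)
  have e3 := mul_le_mul_of_nonneg_left (h (4 * s - 2)) (by linarith : 0 ≤ (1 - p) / 2)
  have e4 := mul_le_mul_of_nonneg_left (h (4 * s - 3)) (by linarith : 0 ≤ (1 - p) / 2)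
  linarith

lemma Fn_zero_of_nonpos (n : ℕ) : ∀ s ≤ 0, Fn p n s = 0 := by
  induction n with
  | zero => intro s hs; simp [Fn, hs]
  | succ n ih =>
    intro s hs
    show step p (Fn p n) s = 0
    unfold step
    rw [ih _ (by linarith), ih _ (by linarith), ih _ (by linarith), ih _ (by linarith)]
    ring

lemma Fn_one_of_ge (n : ℕ) : ∀ s, 1 ≤ s → Fn p n s = 1 := by
  induction n with
  | zero => intro s hs; simp [Fn]; linarith
  | succ n ih =>
    intro s hs
    show step p (Fn p n) s = 1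
    unfold step
    rw [ih _ (by linarith), ih _ (by linarith), ih _ (by linarith), ih _ (by linarith)]
    ring

lemma Fn_mono (n : ℕ) : Monotone (Fn p n) := by
  induction n with
  | zero =>
    intro a b hab
    simp only [Fn]
    split_ifs with ha hb hb
    · exact le_refl _
    · norm_num
    · linarith
    · exact le_refl _
  | succ n ih =>
    intro a b hab
    show step p (Fn p n) a ≤ step p (Fn p n) b
    unfold step
    have e1 := mul_le_mul_of_nonneg_left (ih (by linarith : 4 * a ≤ 4 * b))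
      (by linarith : 0 ≤ p / 2)
    have e2 := mul_le_mul_of_nonneg_left (ih (by linarith : 4 * a - 1 ≤ 4 * b - 1))
      (by linarith : 0 ≤ p / 2)
    have e3 := mul_le_mul_of_nonneg_left (ih (by linarith : 4 * a - 2 ≤ 4 * b - 2))
      (by linarith : 0 ≤ (1 - p) / 2)
    have e4 := mul_le_mul_of_nonneg_left (ih (by linarith : 4 * a - 3 ≤ 4 * b - 3))
      (by linarith : 0 ≤ (1 - p) / 2)
    linarith

lemma Fn_nonneg (n : ℕ) (s : ℝ) : 0 ≤ Fn p n s := by
  rcases le_total s 0 with h | h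
  · rw [Fn_zero_of_nonpos h0 h1 n s h]
  · have := Fn_mono h0 h1 n h
    rwa [Fn_zero_of_nonpos h0 h1 n 0 le_rfl] at this

lemma Fn_le_one (n : ℕ) (s : ℝ) : Fn p n s ≤ 1 := by
  rcases le_total 1 s with h | h
  · rw [Fn_one_of_ge h0 h1 n s h]
  · have := Fn_mono h0 h1 n h
    rwa [Fn_one_of_ge h0 h1 n 1 le_rfl] at this

lemma Fn_succ_le (n : ℕ) : ∀ s, Fn p (n + 1) s ≤ Fn p n s := by
  induction n with
  | zero =>
    intro s
    rcases le_or_gt s 0 with h | h
    · rw [Fn_zero_of_nonpos h0 h1 _ s h, Fn_zero_of_nonpos h0 h1 _ s h]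
    · have : Fn p 0 s = 1 := by simp [Fn, h]
      rw [this]
      exact Fn_le_one h0 h1 _ _
  | succ n ih =>
    intro s
    exact step_le_step h0 h1 ih s

lemma exists_F : ∃ F : ℝ → ℝ, Monotone F ∧ (∀ s ≤ 0, F s = 0) ∧ (∀ s, 1 ≤ s → F s = 1) ∧
    ∀ s, F s = step p F s := by
  have hlim : ∀ s, Tendsto (fun n => Fn p n s) atTop (𝓝 (⨅ n, Fn p n s)) := by
    intro s
    apply tendsto_atTop_ciInf
    · exact antitone_nat_of_succ_le (fun n => Fn_succ_le h0 h1 n s)
    · exact ⟨0, by rintro _ ⟨n, rfl⟩; exact Fn_nonneg h0 h1 n s⟩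
  refine ⟨fun s => ⨅ n, Fn p n s, ?_, ?_, ?_, ?_⟩
  · intro a b hab
    exact le_of_tendsto_of_tendsto' (hlim a) (hlim b) (fun n => Fn_mono h0 h1 n hab)
  · intro s hs
    simp only [Fn_zero_of_nonpos h0 h1 _ s hs]
    simp
  · intro s hs
    simp only [Fn_one_of_ge h0 h1 _ s hs]
    simp
  · intro s
    have h2 : Tendsto (fun n => Fn p (n + 1) s) atTop (𝓝 (⨅ n, Fn p n s)) :=
      (tendsto_add_atTop_iff_nat 1).2 (hlim s)
    have h3 : Tendsto (fun n => Fn p (n + 1) s) atTop
        (𝓝 (step p (fun s => ⨅ n, Fn p n s) s)) := by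
      have : ∀ n, Fn p (n + 1) s = step p (Fn p n) s := fun n => rfl
      simp only [this, step]
      exact (((hlim _).const_mul _).add ((hlim _).const_mul _)).add ((hlim _).const_mul _)
        |>.add ((hlim _).const_mul _)
    exact tendsto_nhds_unique h2 h3

end

/-- periodic extension lemma -/
lemma ext_mono {G : ℝ → ℝ} {κ : ℝ} (hκ : 0 ≤ κ) (hG : Monotone G) (hG1 : G 1 - G 0 = κ) :
    Monotone (fun s : ℝ => κ * ⌊s⌋ + G (Int.fract s)) := by
  intro a b hab
  show κ * ⌊a⌋ + G (Int.fract a) ≤ κ * ⌊b⌋ + G (Int.fract b)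
  rcases eq_or_lt_of_le (Int.floor_mono hab) with h | h
  · have hf : Int.fract a ≤ Int.fract b := by
      unfold Int.fract
      rw [h]
      linarith
    rw [h]
    have := hG hf
    linarith
  · have h2 : (⌊a⌋ : ℝ) + 1 ≤ ⌊b⌋ := by exact_mod_cast h
    have e1 : G (Int.fract a) ≤ G 1 := hG (Int.fract_lt_one a).le
    have e2 : G 0 ≤ G (Int.fract b) := hG (Int.fract_nonneg b)
    nlinarith

/-- The homeomorphism `Y`. -/
lemma exists_Y {p : ℝ} (h0 : 0 < p) (h1 : p < 1) : ∃ Y : ℝ → ℝ, Continuous Y ∧ StrictMono Y ∧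
    Function.Surjective Y ∧ Y 0 = 0 ∧ (∀ s, Y (s + 1) = Y s + 1) ∧
    ∀ s, Y s + Y (s + 1 / 2) = 1 / 2 * Y (4 * s) + p := by
  obtain ⟨F, hFm, hF0, hF1, hFs⟩ := exists_F h0 h1
  set Y : ℝ → ℝ := fun s => ⌊s⌋ + F (Int.fract s) with hY
  have hYdef : ∀ s, Y s = ⌊s⌋ + F (Int.fract s) := fun s => rfl
  have hY0 : Y 0 = 0 := by rw [hYdef]; simp [hF0 0 le_rfl]
  have hYadd : ∀ (s : ℝ) (m : ℤ), Y (s + m) = Y s + m := by
    intro s m
    rw [hYdef, hYdef, Int.floor_add_intCast, Int.fract_add_intCast]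
    push_cast
    ring
  have hY1 : ∀ s, Y (s + 1) = Y s + 1 := by
    intro s
    have := hYadd s 1
    simpa using this
  -- values on `[0,4)`
  have hY4 : ∀ x, 0 ≤ x → x < 4 → Y x = F x + F (x - 1) + F (x - 2) + F (x - 3) := by
    intro x hx0 hx4
    rw [hYdef]
    rcases lt_or_ge x 1 with ha | ha
    · have hfl : ⌊x⌋ = 0 := by rw [Int.floor_eq_iff]; constructor <;> push_cast <;> linarith
      have hfr : Int.fract x = x := by unfold Int.fract; rw [hfl]; simp
      rw [hfl, hfr, hF0 (x - 1) (by linarith), hF0 (x - 2) (by linarith), hF0 (x - 3) (by linarith)]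
      push_cast; ring
    · rcases lt_or_ge x 2 with hb | hb
      · have hfl : ⌊x⌋ = 1 := by rw [Int.floor_eq_iff]; constructor <;> push_cast <;> linarith
        have hfr : Int.fract x = x - 1 := by unfold Int.fract; rw [hfl]; simp
        rw [hfl, hfr, hF1 x (by linarith), hF0 (x - 2) (by linarith), hF0 (x - 3) (by linarith)]
        push_cast; ring
      · rcases lt_or_ge x 3 with hc | hc
        · have hfl : ⌊x⌋ = 2 := by rw [Int.floor_eq_iff]; constructor <;> push_cast <;> linarith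
          have hfr : Int.fract x = x - 2 := by unfold Int.fract; rw [hfl]; simp
          rw [hfl, hfr, hF1 x (by linarith), hF1 (x - 1) (by linarith), hF0 (x - 3) (by linarith)]
          push_cast; ring
        · have hfl : ⌊x⌋ = 3 := by rw [Int.floor_eq_iff]; constructor <;> push_cast <;> linarith
          have hfr : Int.fract x = x - 3 := by unfold Int.fract; rw [hfl]; simp
          rw [hfl, hfr, hF1 x (by linarith), hF1 (x - 1) (by linarith), hF1 (x - 2) (by linarith)]
          push_cast; ring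
  have hY4s : ∀ s, Y (4 * s) = 4 * ⌊s⌋ + (F (4 * Int.fract s) + F (4 * Int.fract s - 1)
      + F (4 * Int.fract s - 2) + F (4 * Int.fract s - 3)) := by
    intro s
    have e : 4 * s = 4 * Int.fract s + ((4 * ⌊s⌋ : ℤ) : ℝ) := by
      push_cast
      have := Int.floor_add_fract s
      linarith
    rw [e, hYadd, hY4 _ (by linarith [Int.fract_nonneg s]) (by linarith [Int.fract_lt_one s])]
    push_cast
    ring
  have hYs : ∀ s, Y s = ⌊s⌋ + (p / 2 * F (4 * Int.fract s) + p / 2 * F (4 * Int.fract s - 1)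
      + (1 - p) / 2 * F (4 * Int.fract s - 2) + (1 - p) / 2 * F (4 * Int.fract s - 3)) := by
    intro s
    rw [hYdef, hFs]
    rfl
  have hYm : Monotone Y := by
    have := ext_mono (G := F) (κ := 1) (by norm_num) hFm
      (by rw [hF1 1 le_rfl, hF0 0 le_rfl]; norm_num)
    simpa [hY] using this
  -- lower comparison
  obtain ⟨c, hc0, hcp, hcq⟩ : ∃ c : ℝ, 0 < c ∧ c ≤ p / 2 ∧ c ≤ (1 - p) / 2 :=
    ⟨min (p / 2) ((1 - p) / 2), lt_min (by linarith) (by linarith), min_le_left _ _,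
      min_le_right _ _⟩
  obtain ⟨C, hC1, hCp, hCq⟩ : ∃ C : ℝ, C < 1 / 2 ∧ p / 2 ≤ C ∧ (1 - p) / 2 ≤ C :=
    ⟨max (p / 2) ((1 - p) / 2), max_lt (by linarith) (by linarith), le_max_left _ _,
      le_max_right _ _⟩
  have hC0 : 0 < C := by linarith
  have hlow : ∀ a b, a ≤ b → c * (Y (4 * b) - Y (4 * a)) ≤ Y b - Y a := by
    intro a b hab
    have hG : Monotone (fun t => (p / 2 - c) * F (4 * t) + (p / 2 - c) * F (4 * t - 1)
        + ((1 - p) / 2 - c) * F (4 * t - 2) + ((1 - p) / 2 - c) * F (4 * t - 3)) := by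
      intro x y hxy
      show _ ≤ _
      have e1 := mul_le_mul_of_nonneg_left (hFm (by linarith : 4 * x ≤ 4 * y))
        (by linarith : 0 ≤ p / 2 - c)
      have e2 := mul_le_mul_of_nonneg_left (hFm (by linarith : 4 * x - 1 ≤ 4 * y - 1))
        (by linarith : 0 ≤ p / 2 - c)
      have e3 := mul_le_mul_of_nonneg_left (hFm (by linarith : 4 * x - 2 ≤ 4 * y - 2))
        (by linarith : 0 ≤ (1 - p) / 2 - c)
      have e4 := mul_le_mul_of_nonneg_left (hFm (by linarith : 4 * x - 3 ≤ 4 * y - 3))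
        (by linarith : 0 ≤ (1 - p) / 2 - c)
      simp only
      linarith
    have hκ : (fun t => (p / 2 - c) * F (4 * t) + (p / 2 - c) * F (4 * t - 1)
        + ((1 - p) / 2 - c) * F (4 * t - 2) + ((1 - p) / 2 - c) * F (4 * t - 3)) 1
        - (fun t => (p / 2 - c) * F (4 * t) + (p / 2 - c) * F (4 * t - 1)
        + ((1 - p) / 2 - c) * F (4 * t - 2) + ((1 - p) / 2 - c) * F (4 * t - 3)) 0
        = 1 - 4 * c := by
      simp only
      rw [hF1 (4 * 1) (by norm_num), hF1 (4 * 1 - 1) (by norm_num), hF1 (4 * 1 - 2) (by norm_num),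
        hF1 (4 * 1 - 3) (by norm_num), hF0 (4 * 0) (by norm_num), hF0 (4 * 0 - 1) (by norm_num),
        hF0 (4 * 0 - 2) (by norm_num), hF0 (4 * 0 - 3) (by norm_num)]
      ring
    have hm := ext_mono (by linarith : 0 ≤ 1 - 4 * c) hG hκ hab
    simp only at hm
    rw [hYs a, hYs b, hY4s a, hY4s b]
    linarith
  have hupp : ∀ a b, a ≤ b → Y b - Y a ≤ C * (Y (4 * b) - Y (4 * a)) := by
    intro a b hab
    have hG : Monotone (fun t => (C - p / 2) * F (4 * t) + (C - p / 2) * F (4 * t - 1)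
        + (C - (1 - p) / 2) * F (4 * t - 2) + (C - (1 - p) / 2) * F (4 * t - 3)) := by
      intro x y hxy
      show _ ≤ _
      have e1 := mul_le_mul_of_nonneg_left (hFm (by linarith : 4 * x ≤ 4 * y))
        (by linarith : 0 ≤ C - p / 2)
      have e2 := mul_le_mul_of_nonneg_left (hFm (by linarith : 4 * x - 1 ≤ 4 * y - 1))
        (by linarith : 0 ≤ C - p / 2)
      have e3 := mul_le_mul_of_nonneg_left (hFm (by linarith : 4 * x - 2 ≤ 4 * y - 2))
        (by linarith : 0 ≤ C - (1 - p) / 2)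
      have e4 := mul_le_mul_of_nonneg_left (hFm (by linarith : 4 * x - 3 ≤ 4 * y - 3))
        (by linarith : 0 ≤ C - (1 - p) / 2)
      simp only
      linarith
    have hκ : (fun t => (C - p / 2) * F (4 * t) + (C - p / 2) * F (4 * t - 1)
        + (C - (1 - p) / 2) * F (4 * t - 2) + (C - (1 - p) / 2) * F (4 * t - 3)) 1
        - (fun t => (C - p / 2) * F (4 * t) + (C - p / 2) * F (4 * t - 1)
        + (C - (1 - p) / 2) * F (4 * t - 2) + (C - (1 - p) / 2) * F (4 * t - 3)) 0
        = 4 * C - 1 := by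
      simp only
      rw [hF1 (4 * 1) (by norm_num), hF1 (4 * 1 - 1) (by norm_num), hF1 (4 * 1 - 2) (by norm_num),
        hF1 (4 * 1 - 3) (by norm_num), hF0 (4 * 0) (by norm_num), hF0 (4 * 0 - 1) (by norm_num),
        hF0 (4 * 0 - 2) (by norm_num), hF0 (4 * 0 - 3) (by norm_num)]
      ring
    have hm := ext_mono (by linarith : 0 ≤ 4 * C - 1) hG hκ hab
    simp only at hm
    rw [hYs a, hYs b, hY4s a, hY4s b]
    linarith
  have hlown : ∀ n : ℕ, ∀ a b, a ≤ b → c ^ n * (Y (4 ^ n * b) - Y (4 ^ n * a)) ≤ Y b - Y a := by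
    intro n
    induction n with
    | zero => intro a b _; simp
    | succ n ih =>
      intro a b hab
      have e1 := ih a b hab
      have e2 := hlow (4 ^ n * a) (4 ^ n * b) (by gcongr)
      have e3 := mul_le_mul_of_nonneg_left e2 (pow_pos hc0 n).le
      have e4 : (4 : ℝ) ^ (n + 1) * b = 4 * (4 ^ n * b) := by ring
      have e5 : (4 : ℝ) ^ (n + 1) * a = 4 * (4 ^ n * a) := by ring
      rw [e4, e5, pow_succ]
      nlinarith
  have huppn : ∀ n : ℕ, ∀ a b, a ≤ b → Y b - Y a ≤ C ^ n * (Y (4 ^ n * b) - Y (4 ^ n * a)) := by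
    intro n
    induction n with
    | zero => intro a b _; simp
    | succ n ih =>
      intro a b hab
      have e1 := ih a b hab
      have e2 := hupp (4 ^ n * a) (4 ^ n * b) (by gcongr)
      have e3 := mul_le_mul_of_nonneg_left e2 (pow_pos hC0 n).le
      have e4 : (4 : ℝ) ^ (n + 1) * b = 4 * (4 ^ n * b) := by ring
      have e5 : (4 : ℝ) ^ (n + 1) * a = 4 * (4 ^ n * a) := by ring
      rw [e4, e5, pow_succ]
      nlinarith
  have hYstrict : StrictMono Y := by
    intro a b hab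
    obtain ⟨n, hn⟩ := pow_unbounded_of_one_lt (1 / (b - a)) (by norm_num : (1 : ℝ) < 4)
    have hba : 0 < b - a := by linarith
    have h4 : 1 ≤ 4 ^ n * b - 4 ^ n * a := by
      rw [div_lt_iff₀ hba] at hn
      nlinarith
    have h5 : Y (4 ^ n * a + 1) ≤ Y (4 ^ n * b) := hYm (by linarith)
    rw [hY1] at h5
    have h6 := hlown n a b hab.le
    have h7 : 0 < c ^ n := pow_pos hc0 n
    nlinarith
  have hYcont : Continuous Y := by
    rw [Metric.continuous_iff]
    intro x ε hε
    obtain ⟨n, hn⟩ := exists_pow_lt_of_lt_one hε (by linarith : C < 1)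
    refine ⟨1 / 4 ^ n, by positivity, ?_⟩
    have key : ∀ a b, a ≤ b → b - a < 1 / 4 ^ n → Y b - Y a < ε := by
      intro a b hab hlt
      have h4 : 4 ^ n * b - 4 ^ n * a ≤ 1 := by
        rw [lt_div_iff₀ (by positivity)] at hlt
        nlinarith
      have h5 : Y (4 ^ n * b) ≤ Y (4 ^ n * a + 1) := hYm (by linarith)
      rw [hY1] at h5
      have h6 := huppn n a b hab
      have h7 : 0 < C ^ n := pow_pos hC0 n
      nlinarith
    intro y hy
    rw [Real.dist_eq, abs_lt] at hy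
    rw [Real.dist_eq, abs_lt]
    rcases le_total x y with h | h
    · have h1 := key x y h (by linarith)
      have h2 := hYm h
      constructor <;> linarith
    · have h1 := key y x h (by linarith)
      have h2 := hYm h
      constructor <;> linarith
  have hYsurj : Function.Surjective Y := by
    apply hYcont.surjective
    · refine tendsto_atTop_mono (f := fun s : ℝ => s + (-1)) ?_
        (tendsto_atTop_add_const_right _ _ tendsto_id)
      intro s
      rw [hYdef]
      have h1 := Int.sub_one_lt_floor s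
      have h2 : 0 ≤ F (Int.fract s) := by
        rw [← hF0 0 le_rfl]; exact hFm (Int.fract_nonneg s)
      show s + (-1) ≤ _
      linarith
    · refine tendsto_atBot_mono (f := fun s : ℝ => s + 1) ?_
        (tendsto_atBot_add_const_right _ _ tendsto_id)
      intro s
      rw [hYdef]
      have h1 := Int.floor_le s
      have h2 : F (Int.fract s) ≤ 1 := by
        rw [← hF1 1 le_rfl]; exact hFm (Int.fract_lt_one s).le
      show _ ≤ s + 1
      linarith
  refine ⟨Y, hYcont, hYstrict, hYsurj, hY0, hY1, ?_⟩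
  intro s
  have ht0 := Int.fract_nonneg s
  have ht1 := Int.fract_lt_one s
  have hsf := Int.floor_add_fract s
  rcases lt_or_ge (Int.fract s) (1 / 2) with hlt | hge
  · have hfl : ⌊s + 1 / 2⌋ = ⌊s⌋ := by
      rw [Int.floor_eq_iff]; constructor <;> linarith
    have hfr : Int.fract (s + 1 / 2) = Int.fract s + 1 / 2 := by
      unfold Int.fract; rw [hfl]; ring
    rw [hY4s s, hYs s, hYs (s + 1 / 2), hfl, hfr]
    set t := Int.fract s
    rw [show 4 * (t + 1 / 2) = 4 * t + 2 by ring, show 4 * t + 2 - 1 = 4 * t + 1 by ring,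
      show 4 * t + 2 - 2 = 4 * t by ring, show 4 * t + 2 - 3 = 4 * t - 1 by ring,
      hF1 (4 * t + 2) (by linarith), hF1 (4 * t + 1) (by linarith), hF0 (4 * t - 2) (by linarith),
      hF0 (4 * t - 3) (by linarith)]
    ring
  · have hfl : ⌊s + 1 / 2⌋ = ⌊s⌋ + 1 := by
      rw [Int.floor_eq_iff]; push_cast; constructor <;> linarith
    have hfr : Int.fract (s + 1 / 2) = Int.fract s - 1 / 2 := by
      unfold Int.fract; rw [hfl]; push_cast; ring
    rw [hY4s s, hYs s, hYs (s + 1 / 2), hfl, hfr]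
    set t := Int.fract s
    rw [show 4 * (t - 1 / 2) = 4 * t - 2 by ring, show 4 * t - 2 - 1 = 4 * t - 3 by ring,
      show 4 * t - 2 - 2 = 4 * t - 4 by ring, show 4 * t - 2 - 3 = 4 * t - 5 by ring,
      hF1 (4 * t) (by linarith), hF1 (4 * t - 1) (by linarith), hF0 (4 * t - 4) (by linarith),
      hF0 (4 * t - 5) (by linarith)]
    push_cast
    ring

/-- For `r = 4` and every `p ∈ (0,1)` there is an increasing homeomorphism of the line that
satisfies the equation and crosses the line `y = x + 1` exactly at `x = -2 (1 + p) / 3`. -/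
lemma family {p : ℝ} (h0 : 0 < p) (h1 : p < 1) : ∃ φ : ℝ → ℝ, Continuous φ ∧ StrictMono φ ∧
    (∀ x : ℝ, φ (∑ j ∈ Finset.range 4, φ (x - (j : ℝ))) = x) ∧
    ∀ x : ℝ, φ x = x + 1 ↔ x = -2 * (1 + p) / 3 := by
  obtain ⟨Y, hc, hs, hsurj, hY0, hY1, hrel⟩ := exists_Y h0 h1
  set e : ℝ ≃o ℝ := hs.orderIsoOfSurjective Y hsurj with he
  have hee : ∀ s, e s = Y s := fun s => rfl
  have hsymm : ∀ s, e.symm (Y s) = s := by
    intro s
    rw [← hee, OrderIso.symm_apply_apply]
  set α : ℝ := (1 + p) / 3 with hα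
  have hYm1 : ∀ s, Y (s - 1) = Y s - 1 := by
    intro s
    have := hY1 (s - 1)
    rw [sub_add_cancel] at this
    linarith
  refine ⟨fun x => Y (e.symm (x + 2 * α) / 2) + 1 - 2 * α, ?_, ?_, ?_, ?_⟩
  · have h2 : Continuous e.symm := e.symm.continuous
    fun_prop
  · intro a b hab
    show _ < _
    have h2 : e.symm (a + 2 * α) < e.symm (b + 2 * α) := e.symm.strictMono (by linarith)
    have h3 := hs (by linarith : e.symm (a + 2 * α) / 2 < e.symm (b + 2 * α) / 2)
    simp only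
    linarith
  · intro x
    obtain ⟨s, hsx⟩ := hsurj (x + 2 * α)
    have k0 : e.symm (x - ((0 : ℕ) : ℝ) + 2 * α) = s := by
      rw [show x - ((0 : ℕ) : ℝ) + 2 * α = Y s by rw [hsx]; push_cast; ring, hsymm]
    have k1 : e.symm (x - ((1 : ℕ) : ℝ) + 2 * α) = s - 1 := by
      rw [show x - ((1 : ℕ) : ℝ) + 2 * α = Y (s - 1) by rw [hYm1, hsx]; push_cast; ring, hsymm]
    have k2 : e.symm (x - ((2 : ℕ) : ℝ) + 2 * α) = s - 1 - 1 := by
      rw [show x - ((2 : ℕ) : ℝ) + 2 * α = Y (s - 1 - 1) by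
        rw [hYm1, hYm1, hsx]; push_cast; ring, hsymm]
    have k3 : e.symm (x - ((3 : ℕ) : ℝ) + 2 * α) = s - 1 - 1 - 1 := by
      rw [show x - ((3 : ℕ) : ℝ) + 2 * α = Y (s - 1 - 1 - 1) by
        rw [hYm1, hYm1, hYm1, hsx]; push_cast; ring, hsymm]
    simp only [Finset.sum_range_succ, Finset.sum_range_zero, k0, k1, k2, k3]
    have m2 : Y ((s - 1 - 1) / 2) = Y (s / 2) - 1 := by
      rw [← hYm1]; congr 1; ring
    have m3 : Y ((s - 1 - 1 - 1) / 2) = Y ((s - 1) / 2) - 1 := by
      rw [← hYm1]; congr 1; ring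
    have m4 := hrel ((s - 1) / 2)
    rw [show (s - 1) / 2 + 1 / 2 = s / 2 by ring,
      show 4 * ((s - 1) / 2) = 2 * s - 1 - 1 by ring, hYm1, hYm1] at m4
    have m5 : 0 + (Y (s / 2) + 1 - 2 * α) + (Y ((s - 1) / 2) + 1 - 2 * α)
        + (Y ((s - 1 - 1) / 2) + 1 - 2 * α) + (Y ((s - 1 - 1 - 1) / 2) + 1 - 2 * α)
        + 2 * α = Y (2 * s - 1 - 1) := by
      rw [m2, m3, hYm1, hYm1, hα]
      linarith
    rw [m5, hsymm, show (2 * s - 1 - 1) / 2 = s - 1 by ring, hYm1, hsx]
    ring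
  · intro x
    obtain ⟨s, hsx⟩ := hsurj (x + 2 * α)
    simp only
    rw [← hsx, hsymm]
    constructor
    · intro h
      have h2 : Y (s / 2) = Y s := by linarith
      have h3 : s / 2 = s := hs.injective h2
      have h4 : s = 0 := by linarith
      rw [h4, hY0] at hsx
      rw [hα] at hsx
      linarith
    · intro h
      have h2 : Y s = 0 := by rw [hsx, h, hα]; ring
      have h3 : s = 0 := hs.injective (by rw [h2, hY0])
      rw [h3] at hsx ⊢
      rw [zero_div, hY0]
      rw [hY0] at hsx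
      linarith

/-- Disproof of Q1 (with `r = 4`), together with a one-parameter family of solutions for
`r = 4` (different parameters give different solutions). -/
theorem result :
    (∀ p : ℝ, 0 < p → p < 1 → ∃ φ : ℝ → ℝ, Continuous φ ∧ StrictMono φ ∧
      (∀ x : ℝ, φ (∑ j ∈ Finset.range 4, φ (x - (j : ℝ))) = x) ∧
      ∀ x : ℝ, φ x = x + 1 ↔ x = -2 * (1 + p) / 3) ∧
    ¬ ∀ r : ℕ, 2 ≤ r → ∀ φ : ℝ → ℝ, Continuous φ → Monotone φ →
      (∀ x : ℝ, φ (∑ j ∈ Finset.range r, φ (x - (j : ℝ))) = x) →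
      ∀ x : ℝ, φ x = x / Real.sqrt r + (Real.sqrt r - 1) / 2 := by
  refine ⟨fun p h0 h1 => family h0 h1, ?_⟩
  intro H
  obtain ⟨φ, hc, hs, heq, hcr⟩ := family (p := 1 / 4) (by norm_num) (by norm_num)
  have h1 := H 4 (by norm_num) φ hc hs.monotone heq (-1)
  have h4 : Real.sqrt ((4 : ℕ) : ℝ) = 2 := by
    rw [show ((4 : ℕ) : ℝ) = 2 ^ 2 by norm_num]
    exact Real.sqrt_sq (by norm_num)
  rw [h4] at h1
  have h2 := (hcr (-1)).1 (by rw [h1]; norm_num)
  norm_num at h2

end

end Pool.Agent.Results.MP_39cb5d_an.AffineNotUnique
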